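import Pool.Agent.TH466.QT.Hyp

/-!
# Hyperbolic projective varieties dominated by systems of high powers

Let `V` be an irreducible component, of dimension `w ≥ 1`, of a projective variety in `P^n` given by
equations which are sums of at most `s` powers of linear forms, or by forms with at most `s`
monomials and divisible exponents, and let the exponents be at least `N`, where
`N ≥ r w (s + 4) (s - 1) (s - 2) / 2`, `r ≥ 1`. Let `X` in `P^M` be a projective variety, smooth or
not, which is dominated by `V` with degree at most `r`, for example birational to the quotient of
`V` by a group of at most `r` birational automorphisms. If there is no rational curve on `X`, in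
particular if `X` is Kobayashi hyperbolic, then the canonical class of `X` (of a resolution of `X`,
if `X` is not smooth) is big. By a well-known consequence of the base point free theorem and of the
cone theorem, for smooth `X` the canonical class is then even ample, as Kobayashi's conjecture
predicts; this last step is not formalised here.

`K` and `L` are the function fields of `V` and `X`, and `x` is the generic point of `X`: `coords` is
the field generated by the ratios of its coordinates, `VarPts k x` is the set of all points of `X`
(in homogeneous coordinates).
-/

set_option autoImplicit false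

namespace Pool.Agent.Results.MP_1e3e9c_ag.DominatedHyperbolic

open Pool.Agent.W602.GT
open Pool.Agent.TH466.QT.RC (NoRationalCurve)

/-- Let `V`, `w`, `s`, `N`, `r` be as above. **(1)** If `V` is not birational to `B × ℙ¹`, then all
varieties `X` with generically finite dominant rational maps `X' ⇢ V` (of any degree) and `X' ⇢ X`
(of degree at most `r`) have a big canonical class. **(2)** In any case, every projective variety `X`
with a dominant rational map `V ⇢ X` of degree at most `r` which contains no rational curve, in
particular every such Kobayashi hyperbolic `X`, has a big canonical class. -/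
theorem result {k : Type} [Field k] [IsAlgClosed k] [CharZero k] {n : ℕ} {ι : Type}
    {F : ι → MvPolynomial (Fin (n + 1)) k} {s N : ℕ} (hF : HighPowers s N F) (hN1 : 1 ≤ N)
    {K : Type} [Field K] [Algebra k K] {w : ℕ} (hw : 1 ≤ w) {y : Fin (n + 1) → K}
    (hy : SubVar F K w y) (hcomp : IsComponent F y) {r : ℕ} (hr : 1 ≤ r)
    (hN : r * (w * ((s + 4) * ((s - 1) * (s - 2) / 2))) ≤ N) :
    (¬ Ruled k K → ∀ (K' L : Type) [Field K'] [Field L] [Algebra k K'] [Algebra k L]
        [Algebra K K'] [Algebra L K'] [IsScalarTower k K K'] [IsScalarTower k L K']
        [Algebra.IsAlgebraic K K'] [FiniteDimensional L K'], Module.finrank L K' ≤ r →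
        GeneralType k L w) ∧
    ∀ (L : Type) [Field L] [Algebra k L] [Algebra L K] [IsScalarTower k L K]
      [FiniteDimensional L K], Module.finrank L K ≤ r → ∀ (M : ℕ) (x : Fin (M + 1) → L),
      x 0 ≠ 0 → coords k x = ⊤ → NoRationalCurve k x → GeneralType k L w := by
  rcases Pool.Agent.TH466.QG.component_dichotomy hF hN1 hw hy hcomp hr hN with ⟨h1, h2⟩ | ⟨h1, h2⟩
  · exact ⟨fun _ => h2, fun L _ _ _ _ _ hdeg M x _ _ _ => h2 K L hdeg⟩
  · exact ⟨fun h => absurd h1 h, fun L _ _ _ _ _ hdeg M x hx hgen hno =>
      absurd hno (Pool.Agent.TH466.QT.RC.curve_of_ruled (K := K) h1 hx hgen)⟩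

end Pool.Agent.Results.MP_1e3e9c_ag.DominatedHyperbolic
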