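import Pool.Agent.TH766.MC.Rat
import Pool.Agent.TH766.MC.Irr

/-!
# Hyperbolic projective varieties birational to abelian covers of hyperplane arrangements

Let `X` be a projective variety, smooth or not, which is birational to an abelian cover `V` of
projective `n`-space, `n ≥ 1`, branched along an arbitrary arrangement of hyperplanes (any number of
hyperplanes, in any position). Assume that the multiplicities of `V` are at least `n + 3`, or only at
least `n + 2` if there are `n + 3` different hyperplanes. If there is no rational curve on `X` (every
map from the affine line to `X` is constant), in particular if `X` is Kobayashi hyperbolic, then the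
canonical class of `X` (of a resolution of `X`, if `X` is not smooth) is big. By a well-known
consequence of the base point free theorem and of the length of extremal rays, for smooth `X` the
canonical class is then even ample, as Kobayashi's conjecture predicts; this last step is not
formalised here.

The variety `X` is any projective model of the function field `K` of `V`: it is given by its generic
point `f = [f 0 : ... : f N]`, `K` is generated by the `f i / f 0`, and the points of `X` are the
common zeros of all homogeneous equations of `f` (`ModelPoint`).

Proof. If the arrangement is irreducible, the canonical class is big by the theorem of helper152 and by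
the sharper bound for `n + 3` different hyperplanes (`Pool.Agent.TH766.MC`). If it is reducible, then
`K = E (σ)` for a field `E` of transcendence degree `n - 1`, and a specialization of the coefficients
of the generic point, which is written with polynomials in `σ` over `E` without common zero, gives
rational curves on every projective model (`exists_curve`).
-/

set_option autoImplicit false

open FF Polynomial Pool.Agent.W602.Cov Pool.Agent.W602.Cov.Cover Pool.Agent.W602.GT
open Pool.Agent.TH766.MC Pool.Agent.W602.Cov.G Pool.Agent.TH152.AC

namespace Pool.Agent.Results.MP_1e3e9c_ag.HyperbolicArrangementCovers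

/-- The multiplicities of the cover are at least `m`: whenever the multiplicities `v i` of the
hyperplanes along a germ of a curve in projective space are compatible with the equations of the
cover and are not all `0`, some `v i` is at least `m`. -/
def Multiplicities {n q r : ℕ} (V : Cover n q r) (m : ℕ) : Prop :=
  ∀ v : Fin q → ℕ, v ≠ 0 → (∃ x : Fin (n + 1) → ℂ, x ≠ 0 ∧ ∀ i, v i ≠ 0 → V.ℓ i x = 0) →
    (∀ k, V.m k ∣ ∑ i, V.e k i * v i) → ∃ i, m ≤ v i

/-- There are `n + 3` different hyperplanes. -/
def ManyHyperplanes {n q : ℕ} (ℓ : Fin q → Form n) : Prop :=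
  ∃ s : Fin (n + 3) → Fin q, ∀ i j, i ≠ j → ∀ t : ℂ, ℓ (s i) ≠ t • ℓ (s j)

/-- There is no rational curve on the projective variety with the generic point `f`: every map from
the affine line to it (given by polynomials `g i` whose values are homogeneous coordinates of points
of the variety) is constant. In particular this is so if every holomorphic map from `ℂ` to the
variety is constant. -/
def NoRationalCurve {K : Type} [Field K] [Algebra ℂ K] {N : ℕ} (f : Fin (N + 1) → K) : Prop :=
  ∀ g : Fin (N + 1) → ℂ[X], (∀ t, ModelPoint f fun i => (g i).eval t) →
    ∀ s t, ∃ c : ℂ, ∀ i, (g i).eval s = c * (g i).eval t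

/-- **Kobayashi's conjecture for models of covers of arrangements.** Let `V` be an abelian cover of
projective `n`-space branched along an arbitrary arrangement, with multiplicities at least `n + 3`, or
at least `n + 2` if there are `n + 3` different hyperplanes, `K` its function field, and let `X` be any
projective variety with the function field `K` (with the generic point `f`). If there is no rational
curve on `X`, in particular if `X` is Kobayashi hyperbolic, then the canonical class of `X` is big. -/
theorem result (n q r : ℕ) (hn : 1 ≤ n) (V : Cover n q r) (hV : V.Free) (m : ℕ)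
    (hm : m = n + 3 ∨ (ManyHyperplanes V.ℓ ∧ m = n + 2)) (hmult : Multiplicities V m)
    (K : Type) [Field K] [Algebra ℂ K] (x : Fin (n + 1) → K) (y : Fin r → K)
    (hK : V.FunctionField K x y) (N : ℕ) (f : Fin (N + 1) → K) (hf0 : f 0 ≠ 0)
    (hf : IntermediateField.adjoin ℂ (Set.range fun i => f i / f 0) = ⊤)
    (hX : NoRationalCurve f) : GeneralType ℂ K n := by
  have hF : V.FreeU ∅ := fun v hv => hV v hv.1
  by_cases hr : FreePart V.ℓ ((∅ : Finset (Fin q)) : Set (Fin q))
  · exfalso
    obtain ⟨hφ0, -, -, -⟩ := Pool.Agent.W352.CG.TRA.main n q r V K x y hK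
    obtain ⟨e, s, a1, a2, ha1, ha2, hs, -⟩ := hr.basis
    obtain ⟨δ, σ, M, hσ0, hσ, htop, hM, hld, E, hE1, hE2, hE3⟩ :=
      delta_cover V (prim_of_freeU V hF) hK e s ha1 ha2 hs
    have hσt : Transcendental E σ := by
      intro h
      have h1 := der_of_alg δ
        (alg_map (IntermediateField.inclusion hE2).toRingHom (fun _ => rfl) h)
      rw [hσ] at h1
      exact hσ0 h1
    obtain ⟨g, hg, s', t, hst⟩ := exists_curve E hσt hE3 hf0 hf
    obtain ⟨c, hc⟩ := hX g hg s' t
    obtain ⟨i, hi⟩ := hst c
    exact hi (hc i)
  · have h1 : ¬ Splits V.ℓ (1 + 1) := not_splits_two fun ⟨V₁, V₂, a, b, c, d⟩ =>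
      hr ⟨V₁, V₂, a, b, c, d, fun i hi => absurd hi (by simp)⟩
    have hmu : MultU V ∅ m := fun v hv hx hk => hmult v hv
      (by obtain ⟨x, hx0, hx1, -⟩ := hx; exact ⟨x, hx0, hx1⟩) hk
    obtain ⟨R, hR, hRm⟩ : ∃ R, Bound V.ℓ 1 R ∧ R + 1 = m := by
      rcases hm with h | ⟨h, h'⟩
      · exact ⟨n + 2, Or.inl (by omega), by omega⟩
      · exact ⟨n + 1, Or.inr ⟨rfl, h, rfl⟩, by omega⟩
    have h2 := (kod_eq hn V hF hK (splits_one hn) h1 hR (hRm ▸ hmu) hr
      (h := n) rfl).1
    obtain ⟨L, hL, ω, hω, D, hD, hD'⟩ := h2
    refine ⟨trdeg_of_basis (coords V hK).2.2, L, hL, ω,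
      fun j => (hω j).1, fun P hP j => (hω j).2.2 P hP ?_, D, hD, hD'⟩
    rintro ⟨i, hi, -⟩
    simp at hi

end Pool.Agent.Results.MP_1e3e9c_ag.HyperbolicArrangementCovers
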